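import Pool.Agent.Helper807.TF.Ok
import Pool.Agent.Helper807.TF.Link

/-!
# The Toads and Frogs position with 7 toads, 7 empty squares and 6 frogs

The value of `T^7 E^7 F^6` is neither `1` nor `1*` (Left, moving second, wins `T^7 E^7 F^6 - 1`, and
after the move of the rightmost toad she still does). The proof evaluates a certificate of lower
bounds for the values of 5564 positions.
-/

set_option autoImplicit false

namespace Pool.Agent.Results.MP_a6e7b1_co.ToadsSeven

open Pool.Agent.Helper807.TF Cell Gm

/-- The value of `T^7 E^7 F^6` is not `1` and is not `1*`. -/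
theorem result : ¬ Eqv (value (start 7)) one ∧ ¬ Eqv (value (start 7)) oneStar := by
  have h1 : Ge (start 7) (((65 : ℕ) : ℤ) - 64) := need_ge ok_rt (by decide +kernel)
  have h2 : Ge (List.replicate 6 toad ++ empty :: toad ::
      (List.replicate 6 empty ++ List.replicate 6 frog)) (((65 : ℕ) : ℤ) - 64) :=
    need_ge ok_rt (by decide +kernel)
  have e : ((65 : ℕ) : ℤ) - 64 = 1 := by norm_num
  rw [e] at h1 h2
  refine not_one h1 ?_ h2
  have h3 := LeftMove.app_left (LeftMove.step (List.replicate 6 empty ++ List.replicate 6 frog))
    (List.replicate 6 toad)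
  exact h3

end Pool.Agent.Results.MP_a6e7b1_co.ToadsSeven
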